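import Mathlib

/-!
# A rational function of one variable: the sum of the orders
-/

set_option autoImplicit false

open Topology Filter Metric

namespace Pool.Agent.H18.NB

/-- A function which is holomorphic outside a finite set and locally bounded extends to an entire function. -/
theorem exists_entire {g : ℂ → ℂ} {B : Finset ℂ} (ha : ∀ z ∉ B, DifferentiableAt ℂ g z)
    (hb : ∀ b ∈ B, ∃ C : ℝ, ∀ᶠ z in 𝓝[≠] b, ‖g z‖ ≤ C) : ∃ f : ℂ → ℂ, Differentiable ℂ f ∧ ∀ z ∉ B, f z = g z := by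
  classical
  refine ⟨fun z => if z ∈ B then limUnder (𝓝[≠] z) g else g z, ?_, fun z hz => if_neg hz⟩
  intro z
  by_cases hz : z ∈ B
  · obtain ⟨C, hC⟩ := hb z hz
    have h1 : ((B.erase z : Finset ℂ) : Set ℂ)ᶜ ∈ 𝓝 z := by
      refine (Finset.isClosed _).isOpen_compl.mem_nhds ?_
      simp
    have h2 : ∀ᶠ w in 𝓝 z, w ≠ z → ‖g w‖ ≤ C := by
      rw [eventually_nhdsWithin_iff] at hC
      filter_upwards [hC] with w hw h3
      exact hw h3
    obtain ⟨ε, hε, hB⟩ := Metric.eventually_nhds_iff_ball.1 (h2.and h1)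
    have h3 : ∀ w ∈ ball z ε, w ≠ z → w ∉ B := by
      intro w hw hwz hwB
      exact (hB w hw).2 (by simp [hwz, hwB])
    have h4 := Complex.differentiableOn_update_limUnder_of_bddAbove (f := g) (c := z) (s := ball z ε) (ball_mem_nhds z hε)
      (fun w hw => (ha w (h3 w hw.1 hw.2)).differentiableWithinAt) (by
        refine ⟨C, ?_⟩
        rintro _ ⟨w, hw, rfl⟩
        exact (hB w hw.1).1 hw.2)
    refine ((h4.differentiableAt (ball_mem_nhds z hε)).congr_of_eventuallyEq ?_)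
    filter_upwards [ball_mem_nhds z hε] with w hw
    by_cases hwz : w = z
    · subst hwz
      rw [if_pos hz, Function.update_self]
    · rw [if_neg (h3 w hw hwz), Function.update_of_ne hwz]
  · refine (ha z hz).congr_of_eventuallyEq ?_
    filter_upwards [(Finset.isClosed B).isOpen_compl.mem_nhds hz] with w hw
    exact if_neg hw

/-- **The sum of the orders of a rational function.**  `h` is holomorphic outside the finite set `B`, has at `b` a pole of order at most `k b`,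
grows at most like `|z|^n` at infinity, and is not zero: then `0 ≤ ∑ k b + n`. -/
theorem zero_le_sum {h : ℂ → ℂ} {B : Finset ℂ} {k : ℂ → ℕ} {n : ℤ} (ha : ∀ z ∉ B, DifferentiableAt ℂ h z)
    (hb : ∀ b ∈ B, ∃ C : ℝ, ∀ᶠ z in 𝓝[≠] b, ‖(z - b) ^ k b * h z‖ ≤ C)
    (hinf : ∃ C : ℝ, ∀ᶠ z in cocompact ℂ, ‖h z‖ ≤ C * ‖z‖ ^ n) (hne : ∃ z ∉ B, h z ≠ 0) : 0 ≤ (∑ b ∈ B, (k b : ℤ)) + n := by
  classical
  by_contra hcon
  push Not at hcon
  obtain ⟨P, hP⟩ : ∃ P : ℂ → ℂ, P = fun z => ∏ b ∈ B, (z - b) ^ k b := ⟨_, rfl⟩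
  have hPd : Differentiable ℂ P := by
    rw [hP]
    fun_prop
  obtain ⟨f, hf, hfe⟩ := exists_entire (g := fun z => P z * h z) (B := B) (fun z hz => (hPd z).mul (ha z hz)) (fun b hbB => by
    obtain ⟨C, hC⟩ := hb b hbB
    obtain ⟨P₁, hP₁⟩ : ∃ P₁ : ℂ → ℂ, P₁ = fun z => ∏ b' ∈ B.erase b, (z - b') ^ k b' := ⟨_, rfl⟩
    have hc : ContinuousAt P₁ b := by
      rw [hP₁]
      fun_prop
    have h1 : ∀ᶠ z in 𝓝[≠] b, ‖P₁ z‖ ≤ ‖P₁ b‖ + 1 := by
      have h2 := hc.norm.eventually (gt_mem_nhds (show ‖P₁ b‖ < ‖P₁ b‖ + 1 by linarith))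
      exact (h2.mono fun z hz => le_of_lt hz).filter_mono nhdsWithin_le_nhds
    refine ⟨(‖P₁ b‖ + 1) * C, ?_⟩
    filter_upwards [hC, h1] with z h2 h3
    have e : P z = P₁ z * (z - b) ^ k b := by
      simp only [hP, hP₁]
      rw [Finset.prod_erase_mul _ _ hbB]
    rw [e, mul_assoc, norm_mul]
    exact mul_le_mul h3 h2 (norm_nonneg _) (by positivity))
  -- growth
  have hgrow : ∃ C : ℝ, ∀ᶠ z in cocompact ℂ, ‖P z‖ ≤ C * ‖z‖ ^ (∑ b ∈ B, (k b : ℤ)) := by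
    refine ⟨∏ b ∈ B, 2 ^ k b, ?_⟩
    have h1 : ∀ᶠ z in cocompact ℂ, 0 < ‖z‖ ∧ ∀ b ∈ B, ‖b‖ ≤ ‖z‖ := by
      have h2 : Tendsto (fun z : ℂ => ‖z‖) (cocompact ℂ) atTop := tendsto_norm_cocompact_atTop
      filter_upwards [h2.eventually (eventually_gt_atTop 0), h2.eventually (eventually_ge_atTop (∑ b ∈ B, ‖b‖))] with z h3 h4
      exact ⟨h3, fun b hbB => (Finset.single_le_sum (f := fun b : ℂ => ‖b‖) (fun _ _ => norm_nonneg _) hbB).trans h4⟩
    filter_upwards [h1] with z hz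
    obtain ⟨hz0, hz1⟩ := hz
    have e : (∏ b ∈ B, (2 : ℝ) ^ k b) * ‖z‖ ^ (∑ b ∈ B, (k b : ℤ)) = ∏ b ∈ B, (2 * ‖z‖) ^ k b := by
      have h3 : ‖z‖ ^ (∑ b ∈ B, (k b : ℤ)) = ∏ b ∈ B, ‖z‖ ^ k b := by
        rw [← Nat.cast_sum, zpow_natCast, Finset.prod_pow_eq_pow_sum]
      rw [h3, ← Finset.prod_mul_distrib]
      exact Finset.prod_congr rfl fun b _ => (mul_pow _ _ _).symm
    rw [e, hP]
    simp only [norm_prod, norm_pow]
    refine Finset.prod_le_prod (fun b _ => by positivity) fun b hbB => ?_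
    refine pow_le_pow_left₀ (norm_nonneg _) ?_ _
    calc ‖z - b‖ ≤ ‖z‖ + ‖b‖ := norm_sub_le _ _
      _ ≤ 2 * ‖z‖ := by linarith [hz1 b hbB]
  obtain ⟨C₁, hC₁⟩ := hgrow
  obtain ⟨C₂, hC₂⟩ := hinf
  have hBc : ∀ᶠ z in cocompact ℂ, z ∉ B := by
    exact (B.finite_toSet.isCompact).compl_mem_cocompact
  have hbound : ∀ᶠ z in cocompact ℂ, ‖f z‖ ≤ |C₁| * |C₂| * ‖z‖⁻¹ := by
    have h2 : Tendsto (fun z : ℂ => ‖z‖) (cocompact ℂ) atTop := tendsto_norm_cocompact_atTop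
    filter_upwards [hC₁, hC₂, hBc, h2.eventually (eventually_ge_atTop 1)] with z h3 h4 h5 h6
    have hz0 : 0 < ‖z‖ := by linarith
    rw [hfe z h5, norm_mul]
    calc ‖P z‖ * ‖h z‖ ≤ (|C₁| * ‖z‖ ^ (∑ b ∈ B, (k b : ℤ))) * (|C₂| * ‖z‖ ^ n) := by
          refine mul_le_mul (h3.trans ?_) (h4.trans ?_) (norm_nonneg _) (by positivity)
          · exact mul_le_mul_of_nonneg_right (le_abs_self _) (by positivity)
          · exact mul_le_mul_of_nonneg_right (le_abs_self _) (by positivity)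
      _ = |C₁| * |C₂| * ‖z‖ ^ ((∑ b ∈ B, (k b : ℤ)) + n) := by
          rw [zpow_add₀ hz0.ne']
          ring
      _ ≤ |C₁| * |C₂| * ‖z‖ ^ (-1 : ℤ) := by
          refine mul_le_mul_of_nonneg_left ?_ (by positivity)
          exact zpow_le_zpow_right₀ h6 (by omega)
      _ = |C₁| * |C₂| * ‖z‖⁻¹ := by rw [zpow_neg_one]
  have hlim : Tendsto f (cocompact ℂ) (𝓝 0) := by
    have h2 : Tendsto (fun z : ℂ => ‖z‖) (cocompact ℂ) atTop := tendsto_norm_cocompact_atTop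
    have h3 : Tendsto (fun z : ℂ => |C₁| * |C₂| * ‖z‖⁻¹) (cocompact ℂ) (𝓝 (|C₁| * |C₂| * 0)) :=
      (tendsto_inv_atTop_zero.comp h2).const_mul _
    rw [mul_zero] at h3
    exact squeeze_zero_norm' hbound h3
  have hzero : ∀ z, f z = 0 := fun z => by
    have := hf.apply_eq_of_tendsto_cocompact z hlim
    exact this
  obtain ⟨z, hz, hz0⟩ := hne
  have hev : ∀ᶠ w in 𝓝 z, P w * h w = 0 := by
    filter_upwards [(Finset.isClosed B).isOpen_compl.mem_nhds hz] with w hw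
    rw [← hfe w hw, hzero]
  have h1 : P z * h z = 0 := hev.self_of_nhds
  have hPz : P z ≠ 0 := by
    rw [hP]
    refine Finset.prod_ne_zero_iff.2 fun b hbB => pow_ne_zero _ (sub_ne_zero.2 ?_)
    rintro rfl
    exact hz hbB
  exact (mul_ne_zero hPz hz0) h1

end Pool.Agent.H18.NB
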